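import Pool.Agent.Helper7.PX.Goals3
import Pool.Agent.Helper35.PX.ZB

/-!
# Project PX (MP_69be96_nt): packet ZG (isolated tight clusters)
-/

set_option autoImplicit false

open Finset Filter Topology

namespace Pool.Agent.Helper86.PX

open Pool.Agent.Helper7.PX
open Pool.Agent.Helper35.PX (wd_use loglog_floor)

theorem lt_count_iff {a b : ℕ} : a < Nat.count Nat.Prime b ↔ Nat.nth Nat.Prime a < b :=
  Nat.lt_nth_iff_count_lt Nat.infinite_setOfPred_prime

theorem nth_prime (a : ℕ) : (Nat.nth Nat.Prime a).Prime :=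
  Nat.prime_nth_prime a

theorem nth_mono {a b : ℕ} (h : a ≤ b) : Nat.nth Nat.Prime a ≤ Nat.nth Nat.Prime b :=
  (Nat.nth_strictMono Nat.infinite_setOfPred_prime).monotone h

/-- the number of the primes in an interval -/
theorem count_np {n h l : ℕ} :
    Nat.count Nat.Prime (n + 1) + np n h l ≤ Nat.count Nat.Prime (n + h + l + 1) := by
  rw [Nat.count_eq_card_filter_range, Nat.count_eq_card_filter_range]
  have h1 : np n h l = (((Ioc h (h + l)).filter (fun j => (n + j).Prime)).image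
      (fun j => n + j)).card := by
    rw [card_image_of_injective _ (add_right_injective n)]
    unfold np
    congr!
  rw [h1, ← card_union_of_disjoint]
  · refine card_le_card fun q hq => ?_
    rw [mem_union, mem_filter, mem_range, mem_image] at hq
    rw [mem_filter, mem_range]
    rcases hq with ⟨h2, h3⟩ | ⟨j, hj, rfl⟩
    · exact ⟨by omega, h3⟩
    · rw [mem_filter, mem_Ioc] at hj
      exact ⟨by omega, hj.2⟩
  · rw [Finset.disjoint_left]
    intro q hq hq'
    rw [mem_filter, mem_range] at hq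
    rw [mem_image] at hq'
    obtain ⟨j, hj, rfl⟩ := hq'
    rw [mem_filter, mem_Ioc] at hj
    omega

/-- the combinatorial part -/
theorem chain {n h0 l W k : ℕ} (hn : 2 ≤ n)
    (hblock : ∀ q : ℕ, q.Prime → n < q → q ≤ n + W → n + h0 < q ∧ q ≤ n + h0 + l)
    (hW : h0 + l ≤ W) (hk : k + 1 ≤ np n h0 l) :
    ∃ s r : ℕ, k ≤ r ∧ Nat.nth Nat.Prime s ≤ n ∧ n + h0 < Nat.nth Nat.Prime (s + 1) ∧
      Nat.nth Nat.Prime (s + 1) ≤ n + h0 + l ∧ Nat.nth Nat.Prime (s + r + 1) ≤ n + h0 + l ∧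
      n + W < Nat.nth Nat.Prime (s + r + 2) ∧
      Nat.nth Nat.Prime (s + r + 2) ≤ 2 * (n + h0 + l) := by
  obtain ⟨a, ha⟩ : ∃ a, a = Nat.count Nat.Prime (n + 1) := ⟨_, rfl⟩
  obtain ⟨b, hb⟩ : ∃ b, b = Nat.count Nat.Prime (n + h0 + l + 1) := ⟨_, rfl⟩
  have hab : a + (k + 1) ≤ b := by
    have := count_np (n := n) (h := h0) (l := l)
    omega
  have ha1 : 1 ≤ a := by
    rw [ha, Nat.one_le_iff_ne_zero, ← Nat.pos_iff_ne_zero, lt_count_iff, Nat.nth_prime_zero_eq_two]
    omega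
  have hbk : a + k < b := by omega
  refine ⟨a - 1, b - a - 1, by omega, ?_, ?_, ?_, ?_, ?_, ?_⟩
  · have h1 : a - 1 < Nat.count Nat.Prime (n + 1) := by omega
    rw [lt_count_iff] at h1
    omega
  · have h1 : ¬ a < Nat.count Nat.Prime (n + 1) := by omega
    rw [lt_count_iff] at h1
    have h2 : a - 1 + 1 = a := by omega
    rw [h2]
    by_contra h3
    have h4 := hblock _ (nth_prime a) (by omega) (by omega)
    omega
  · have h1 : a < Nat.count Nat.Prime (n + h0 + l + 1) := by omega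
    rw [lt_count_iff] at h1
    have h2 : a - 1 + 1 = a := by omega
    rw [h2]
    omega
  · have h1 : b - 1 < Nat.count Nat.Prime (n + h0 + l + 1) := by omega
    rw [lt_count_iff] at h1
    have h2 : a - 1 + (b - a - 1) + 1 = b - 1 := by omega
    rw [h2]
    omega
  · have h1 : ¬ b < Nat.count Nat.Prime (n + h0 + l + 1) := by omega
    rw [lt_count_iff] at h1
    have h2 : a - 1 + (b - a - 1) + 2 = b := by omega
    rw [h2]
    by_contra h3
    have h4 := hblock _ (nth_prime b) (by omega) (by omega)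
    omega
  · obtain ⟨q, hq, hq1, hq2⟩ := Nat.exists_prime_lt_and_le_two_mul (n + h0 + l) (by omega)
    have h2 : a - 1 + (b - a - 1) + 2 = b := by omega
    rw [h2]
    refine le_trans ?_ hq2
    rw [← Nat.nth_count hq]
    apply nth_mono
    rw [hb]
    exact Nat.count_monotone _ (by omega)

/-- the counting part -/
theorem count3 (N : Finset ℕ) (y : ℕ) (f : ℕ → ℕ)
    (h : ∀ n ∈ N, n < Nat.nth Nat.Prime (f n + 1) ∧ Nat.nth Nat.Prime (f n + 1) ≤ n + y) :
    N.card ≤ y * (N.image f).card := by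
  refine card_le_mul_card_image N y ?_
  intro s _
  have h4 : N.filter (fun n => f n = s) ⊆
      Ico (Nat.nth Nat.Prime (s + 1) - y) (Nat.nth Nat.Prime (s + 1)) := by
    intro n hn
    rw [mem_filter] at hn
    obtain ⟨hn1, hn2⟩ := hn
    obtain ⟨h5, h6⟩ := h n hn1
    rw [hn2] at h5 h6
    rw [mem_Ico]
    omega
  refine (card_le_card h4).trans ?_
  rw [Nat.card_Ico]
  omega

theorem zg (hFC : StmtFC2) : StmtZG := by
  classical
  obtain ⟨c, C, hc, hC, hF⟩ := hFC
  refine ⟨c / 16, 4 * C + 1, by positivity, ?_⟩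
  intro k ε hε
  obtain ⟨δ, lam0, x0, hδ, hF⟩ := hF k (min ε 1) (by positivity) (min_le_right _ _)
  set ε' : ℝ := min ε 1 with hε'
  have hε'0 : 0 < ε' := by positivity
  have hε'1 : ε' ≤ 1 := min_le_right _ _
  have hε'2 : ε' ≤ ε := min_le_left _ _
  obtain ⟨l1, hl1⟩ : ∃ l1 : ℝ, l1 = 8 + |lam0| := ⟨_, rfl⟩
  have hlam0 : 0 ≤ |lam0| := abs_nonneg _
  have hl1a : 8 ≤ l1 := by linarith
  have hll : Tendsto (fun x : ℝ => Real.log (Real.log x)) atTop atTop :=
    Real.tendsto_log_atTop.comp Real.tendsto_log_atTop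
  have hsq : ∀ᶠ x : ℝ in atTop, c * Real.log x ^ 2 ≤ x / 4 := by
    have h1 := (Real.isLittleO_pow_log_id_atTop (n := 2)).def (c := 1 / (4 * c)) (by positivity)
    filter_upwards [h1, eventually_ge_atTop (0 : ℝ)] with x hx hx0
    rw [Real.norm_eq_abs, Real.norm_eq_abs, id, abs_of_nonneg hx0,
      abs_of_nonneg (sq_nonneg _)] at hx
    calc c * Real.log x ^ 2 ≤ c * (1 / (4 * c) * x) := mul_le_mul_of_nonneg_left hx hc.le
      _ = x / 4 := by field_simp
  have hev : ∀ᶠ x : ℝ in atTop, 1024 ≤ x ∧ (4 * x0 + 4 : ℝ) ≤ x ∧ c * Real.log x ^ 2 ≤ x / 4 ∧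
      2 ≤ Real.log x ∧ max (4 * l1 / c) 2 ≤ Real.log (Real.log x) :=
    (eventually_ge_atTop 1024).and ((eventually_ge_atTop _).and
      (hsq.and ((Real.tendsto_log_atTop.eventually_ge_atTop _).and
      (hll.eventually_ge_atTop _))))
  obtain ⟨X, hX⟩ := Filter.eventually_atTop.1 hev
  refine ⟨Real.exp (C * l1) + 32 + 8 * l1, X, ?_⟩
  intro x hx L hL hLc
  obtain ⟨hx16, hx0, hxsq, hlogx2, hxl⟩ := hX x hx
  have hxl1 : 4 * l1 / c ≤ Real.log (Real.log x) := (le_max_left _ _).trans hxl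
  have hxl2 : 2 ≤ Real.log (Real.log x) := (le_max_right _ _).trans hxl
  have hxpos : (0 : ℝ) < x := by linarith
  set x' : ℕ := ⌊x / 4⌋₊ with hx'
  have hfl1 : (x' : ℝ) ≤ x / 4 := Nat.floor_le (by positivity)
  have hfl2 : x / 4 < (x' : ℝ) + 1 := Nat.lt_floor_add_one _
  have hfl3 : x / 8 ≤ (x' : ℝ) := by linarith
  have hx'pos : (0 : ℝ) < x' := by linarith
  have hlog1 : Real.log x' ≤ Real.log x := Real.log_le_log hx'pos (by linarith)
  have hlog2 : Real.log x ≤ 2 * Real.log x' := by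
    have h3 : x ≤ (x' : ℝ) ^ 2 := by nlinarith
    have h4 := Real.log_le_log hxpos h3
    rw [Real.log_pow] at h4
    push_cast at h4
    exact h4
  have hlogx'1 : 1 ≤ Real.log x' := by linarith
  have hlogx' : 0 < Real.log x' := by linarith
  have hll' := loglog_floor hlogx' hlog2 (by linarith) hxl2
  obtain ⟨lam, hlam⟩ : ∃ lam : ℝ, lam = 4 * L + l1 := ⟨_, rfl⟩
  have hlam8 : 8 ≤ lam := by linarith
  have hge : lam0 ≤ lam := by
    have := le_abs_self lam0
    linarith
  have hle : lam ≤ c * Real.log (Real.log x') := by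
    have h1 : l1 ≤ c / 4 * Real.log (Real.log x) := by
      rw [div_le_iff₀ hc] at hxl1
      linarith
    have h2 : c * (Real.log (Real.log x) / 2) ≤ c * Real.log (Real.log x') :=
      mul_le_mul_of_nonneg_left hll' hc.le
    linarith
  have hx'0 : x0 ≤ x' := by
    have h1 : (x0 : ℝ) ≤ x' := by linarith
    exact_mod_cast h1
  -- the integers
  obtain ⟨l, hl⟩ : ∃ l : ℕ, l = ⌊ε' * Real.log x'⌋₊ := ⟨_, rfl⟩
  have hl1' : (l : ℝ) ≤ ε' * Real.log x' := by
    rw [hl]
    exact Nat.floor_le (by positivity)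
  obtain ⟨W, hWdef⟩ : ∃ W : ℕ, W = ⌊lam * Real.log x'⌋₊ := ⟨_, rfl⟩
  have hW1 : (W : ℝ) ≤ lam * Real.log x' := by
    rw [hWdef]
    exact Nat.floor_le (by positivity)
  have hW2 : lam * Real.log x' < (W : ℝ) + 1 := by
    rw [hWdef]
    exact Nat.lt_floor_add_one _
  obtain ⟨h0, hh0⟩ : ∃ h0 : ℕ, h0 = ⌈(L + 2) * Real.log x⌉₊ := ⟨_, rfl⟩
  have hh1 : (L + 2) * Real.log x ≤ (h0 : ℝ) := by
    rw [hh0]
    exact Nat.le_ceil _
  have hh2 : (h0 : ℝ) ≤ (L + 2) * Real.log x + 1 := by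
    rw [hh0]
    exact (Nat.ceil_lt_add_one (by positivity)).le
  have hl2 : (l : ℝ) ≤ Real.log x' := by
    refine hl1'.trans ?_
    calc ε' * Real.log x' ≤ 1 * Real.log x' := mul_le_mul_of_nonneg_right hε'1 hlogx'.le
      _ = Real.log x' := one_mul _
  -- the main inequality between the parameters
  have hmain : (2 * L + 2) * Real.log x + Real.log x' + 2 ≤ lam * Real.log x' := by
    have h1 : (2 * L + 2) * Real.log x ≤ (2 * L + 2) * (2 * Real.log x') :=
      mul_le_mul_of_nonneg_left hlog2 (by positivity)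
    have h3 : 8 * Real.log x' ≤ l1 * Real.log x' := mul_le_mul_of_nonneg_right hl1a hlogx'.le
    have h4 : lam * Real.log x' = 4 * L * Real.log x' + l1 * Real.log x' := by
      rw [hlam]
      ring
    rw [h4]
    linarith
  have hLx : 0 ≤ L * Real.log x := by positivity
  have hh4 : (h0 : ℝ) + ε' * Real.log x' ≤ lam * Real.log x' := by
    have h2 : ε' * Real.log x' ≤ 1 * Real.log x' := mul_le_mul_of_nonneg_right hε'1 hlogx'.le
    have h3 : (2 * L + 2) * Real.log x = (L + 2) * Real.log x + L * Real.log x := by ring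
    rw [h3] at hmain
    linarith
  have hh5 : h0 + l ≤ W := by
    rw [hWdef]
    refine Nat.le_floor ?_
    push_cast
    linarith
  have hh6 : L * Real.log x ≤ (W : ℝ) - h0 - l := by
    have h3 : (2 * L + 2) * Real.log x = (L + 2) * Real.log x + L * Real.log x := by ring
    rw [h3] at hmain
    linarith
  have key := (hF x' hx'0 lam hge hle h0 hh4)
  obtain ⟨Gd, hG⟩ : ∃ Gd : Finset ℕ, Gd = (Ioc (x' / 32) x').filter (fun n =>
    Wd x' n lam {h0} ⌊ε' * Real.log x'⌋₊ ∧ k + 1 ≤ np n h0 ⌊ε' * Real.log x'⌋₊ ∧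
    ∀ i j : ℕ, 1 ≤ i → i < j → (j : ℝ) ≤ lam * Real.log x' → (n + i).Prime → (n + j).Prime →
      δ * Real.log x' ≤ (j : ℝ) - i) := ⟨_, rfl⟩
  have key' : (x' : ℝ) * Real.exp (-Real.exp (C * lam)) ≤ (Gd.card : ℝ) := by
    rw [hG]
    convert key using 3
  have hblock : ∀ n ∈ Gd, ∀ q : ℕ, q.Prime → n < q → q ≤ n + W → n + h0 < q ∧ q ≤ n + h0 + l := by
    intro n hn q hq h1 h2
    rw [hG, mem_filter] at hn
    have h2' : (q : ℝ) ≤ (n : ℝ) + W := by exact_mod_cast h2
    obtain ⟨h, hh, h3, h4⟩ := wd_use hn.2.1 hq h1 (by linarith)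
    rw [mem_singleton] at hh
    subst hh
    rw [hl]
    exact ⟨h3, h4⟩
  have hn2 : ∀ n ∈ Gd, 2 ≤ n ∧ n ≤ x' := by
    intro n hn
    rw [hG, mem_filter, mem_Ioc] at hn
    have h1 : ((255 : ℕ) : ℝ) ≤ x' := by
      push_cast
      linarith
    have h2 : 255 ≤ x' := by exact_mod_cast h1
    omega
  have hch : ∀ n ∈ Gd, ∃ s r : ℕ, k ≤ r ∧ Nat.nth Nat.Prime s ≤ n ∧
      n + h0 < Nat.nth Nat.Prime (s + 1) ∧
      Nat.nth Nat.Prime (s + 1) ≤ n + h0 + l ∧ Nat.nth Nat.Prime (s + r + 1) ≤ n + h0 + l ∧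
      n + W < Nat.nth Nat.Prime (s + r + 2) ∧
      Nat.nth Nat.Prime (s + r + 2) ≤ 2 * (n + h0 + l) := by
    intro n hn
    refine chain (hn2 n hn).1 (hblock n hn) hh5 ?_
    rw [hG, mem_filter] at hn
    rw [hl]
    exact hn.2.2.1
  choose! f r hr1 hr2 hr3 hr4 hr5 hr6 hr7 using hch
  have hcount := count3 Gd (h0 + l) f fun n hn => by
    have h1 := hr3 n hn
    have h2 := hr4 n hn
    omega
  set S := Gd.image f with hS
  have hWx : (h0 : ℝ) + l ≤ c * Real.log x ^ 2 := by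
    have h7 : lam * Real.log x' ≤ c * Real.log x ^ 2 := by
      have h8 : Real.log (Real.log x') ≤ Real.log x := by
        have h9 := Real.log_le_sub_one_of_pos hlogx'
        linarith
      calc lam * Real.log x' ≤ (c * Real.log (Real.log x')) * Real.log x' :=
            mul_le_mul_of_nonneg_right hle hlogx'.le
        _ ≤ (c * Real.log x) * Real.log x :=
            mul_le_mul (mul_le_mul_of_nonneg_left h8 hc.le) hlog1 hlogx'.le (by positivity)
        _ = c * Real.log x ^ 2 := by ring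
    linarith
  obtain ⟨R, hR⟩ : ∃ R : Set ℕ, R = {n : ℕ | ∃ r : ℕ, k ≤ r ∧
      (Nat.nth Nat.Prime (n + r + 2) : ℝ) ≤ x ∧
      L * Real.log x ≤ (Nat.nth Nat.Prime (n + 1) : ℝ) - Nat.nth Nat.Prime n - 1 ∧
      (Nat.nth Nat.Prime (n + r + 1) : ℝ) - Nat.nth Nat.Prime (n + 1) ≤ ε * Real.log x ∧
      L * Real.log x
        ≤ (Nat.nth Nat.Prime (n + r + 2) : ℝ) - Nat.nth Nat.Prime (n + r + 1) - 1} := ⟨_, rfl⟩
  have hfin : R.Finite := by
    refine (Set.finite_Iic ⌊x⌋₊).subset ?_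
    intro n hn
    rw [hR] at hn
    obtain ⟨r, -, h1, -⟩ := hn
    have h2 : n ≤ Nat.nth Nat.Prime (n + r + 2) :=
      (by omega : n ≤ n + r + 2).trans
        ((Nat.nth_strictMono Nat.infinite_setOfPred_prime).id_le (n + r + 2))
    exact h2.trans (Nat.le_floor h1)
  have hsub : (S : Set ℕ) ⊆ R := by
    intro s hs
    obtain ⟨n, hn, rfl⟩ := mem_image.1 (Finset.mem_coe.1 hs)
    rw [hR]
    have a2 : (Nat.nth Nat.Prime (f n) : ℝ) ≤ n := by exact_mod_cast hr2 n hn
    have a3 : (n : ℝ) + h0 + 1 ≤ Nat.nth Nat.Prime (f n + 1) := by exact_mod_cast hr3 n hn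
    have a5 : (Nat.nth Nat.Prime (f n + r n + 1) : ℝ) ≤ n + h0 + l := by
      exact_mod_cast hr5 n hn
    have a6 : (n : ℝ) + W + 1 ≤ Nat.nth Nat.Prime (f n + r n + 2) := by exact_mod_cast hr6 n hn
    have a7 : (Nat.nth Nat.Prime (f n + r n + 2) : ℝ) ≤ 2 * (n + h0 + l) := by
      exact_mod_cast hr7 n hn
    have a8 : (n : ℝ) ≤ x' := by exact_mod_cast (hn2 n hn).2
    refine ⟨r n, hr1 n hn, ?_, ?_, ?_, ?_⟩
    · linarith
    · have h3 : (L + 2) * Real.log x = L * Real.log x + 2 * Real.log x := by ring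
      rw [h3] at hh1
      linarith
    · have h3 : ε' * Real.log x' ≤ ε * Real.log x :=
        mul_le_mul hε'2 hlog1 hlogx'.le hε.le
      linarith
    · linarith
  have hcard : (S.card : ℝ) ≤ (R.ncard : ℝ) := by
    have := Set.ncard_le_ncard hsub hfin
    rw [Set.ncard_coe_finset] at this
    exact_mod_cast this
  rw [← hR]
  refine le_trans ?_ hcard
  -- the final estimate
  have hcountR : (Gd.card : ℝ) ≤ (lam * Real.log x) * S.card := by
    have h1 : (Gd.card : ℝ) ≤ ((h0 : ℝ) + l) * S.card := by exact_mod_cast hcount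
    refine h1.trans (mul_le_mul_of_nonneg_right ?_ (by positivity))
    have h2 : lam * Real.log x' ≤ lam * Real.log x :=
      mul_le_mul_of_nonneg_left hlog1 (by linarith)
    linarith
  obtain ⟨E, hE⟩ : ∃ E : ℝ, E = Real.exp (-Real.exp (C * lam)) := ⟨_, rfl⟩
  have hE0 : 0 < E := by rw [hE]; exact Real.exp_pos _
  rw [← hE] at key'
  have hlx0 : 0 < Real.log x := by linarith
  have hSl : x / Real.log x * (E / (8 * lam)) ≤ (S.card : ℝ) := by
    have h1 : x / 8 * E ≤ (lam * Real.log x) * S.card :=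
      (mul_le_mul_of_nonneg_right hfl3 hE0.le).trans (key'.trans hcountR)
    have h2 : 0 < lam * Real.log x := by positivity
    rw [← div_le_iff₀' h2] at h1
    refine le_trans (le_of_eq ?_) h1
    field_simp
  refine le_trans (mul_le_mul_of_nonneg_left ?_ (by positivity)) hSl
  have h1 : 1 ≤ Real.exp ((4 * C + 1) * L) := Real.one_le_exp (by positivity)
  have h2 : L ≤ Real.exp ((4 * C + 1) * L) := by
    have h3 : Real.exp L ≤ Real.exp ((4 * C + 1) * L) := by
      refine Real.exp_le_exp.2 ?_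
      have := mul_nonneg hC.le hL
      linarith
    have h4 := Real.add_one_le_exp L
    linarith
  have h3 : Real.exp (C * lam) ≤ Real.exp (C * l1) * Real.exp ((4 * C + 1) * L) := by
    rw [← Real.exp_add]
    refine Real.exp_le_exp.2 ?_
    rw [hlam]
    have h4 : C * (4 * L + l1) = C * l1 + (4 * C) * L := by ring
    have h5 : (4 * C + 1) * L = (4 * C) * L + L := by ring
    rw [h4, h5]
    linarith
  have h4 : Real.exp (-(8 * lam)) ≤ 1 / (8 * lam) := by
    rw [Real.exp_neg, ← one_div]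
    apply one_div_le_one_div_of_le (by positivity)
    have := Real.add_one_le_exp (8 * lam)
    linarith
  have h5 : 8 * lam ≤ (32 + 8 * l1) * Real.exp ((4 * C + 1) * L) := by
    rw [hlam]
    have h6 : 8 * l1 ≤ 8 * l1 * Real.exp ((4 * C + 1) * L) :=
      le_mul_of_one_le_right (by linarith) h1
    have h7 : (32 + 8 * l1) * Real.exp ((4 * C + 1) * L) =
        32 * Real.exp ((4 * C + 1) * L) + 8 * l1 * Real.exp ((4 * C + 1) * L) := by ring
    rw [h7]
    linarith
  calc Real.exp (-((Real.exp (C * l1) + 32 + 8 * l1) * Real.exp ((4 * C + 1) * L)))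
      ≤ Real.exp (-Real.exp (C * lam) + -(8 * lam)) := by
        refine Real.exp_le_exp.2 ?_
        have h8 : (Real.exp (C * l1) + 32 + 8 * l1) * Real.exp ((4 * C + 1) * L) =
            Real.exp (C * l1) * Real.exp ((4 * C + 1) * L) +
              (32 + 8 * l1) * Real.exp ((4 * C + 1) * L) := by ring
        rw [h8]
        linarith
    _ = E * Real.exp (-(8 * lam)) := by rw [Real.exp_add, hE]
    _ ≤ E * (1 / (8 * lam)) := mul_le_mul_of_nonneg_left h4 hE0.le
    _ = E / (8 * lam) := by ring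

end Pool.Agent.Helper86.PX
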