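import Pool.Agent.Helper7.PX.Goals
import Pool.Agent.Helper80.TU.SU
import Pool.Agent.Helper88.CG.VP

/-!
# Project PX (MP_69be96_nt): packet SU
-/

set_option autoImplicit false

open Finset Filter Topology

open scoped Classical

namespace Pool.Agent.Helper86.PX

open Pool.Agent.Helper7.PX
open Pool.Agent.Helper5.GM (card_large abs_vv_le sum_label)
open Pool.Agent.Helper88.PP (pr Rg om Sf SS uu vv ee LA VV QQ cost nc dd)
open Pool.Agent.Helper88.RR (gg ab TB WB nz wb DB Db VM GB)
open Pool.Agent.Helper85.RR (ab_nonneg card_TB mem_TB)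
open Pool.Agent.Helper3.PP (mem_SS mem_LA)
open Pool.Agent.Helper88.CG (qE mE)
open Pool.Agent.Helper80.TU (sum_labels num_end)

theorem su : StmtSU := by
  intro t ht
  obtain ⟨C, hC1, hC⟩ := Pool.Agent.Helper31.RR.cb
  obtain ⟨E1, hsize⟩ := Pool.Agent.Helper88.TU.size
  obtain ⟨c2, hc2, E2, hvp⟩ := Pool.Agent.Helper88.CG.vp
  refine ⟨E1 + E2 + 1000 + ⌈Real.log (t * C)⌉₊ + ⌈Real.log t⌉₊,
    fun E z x y hE hSr P hP a ha n hn hR => ?_⟩
  obtain ⟨_, _, _, _, _, _, _, _, hyz, hz64, _, _, _, _⟩ := hsize E z x y (by omega) hSr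
  obtain ⟨s1, s2, s3, s4, s5⟩ := hSr
  have hE1 : 1000 ≤ E := by omega
  have hE2 : Real.log (t * C) ≤ E := by
    refine (Nat.le_ceil _).trans ?_
    exact_mod_cast (by omega : ⌈Real.log (t * C)⌉₊ ≤ E)
  have hE3 : Real.log t ≤ E := by
    refine (Nat.le_ceil _).trans ?_
    exact_mod_cast (by omega : ⌈Real.log t⌉₊ ≤ E)
  have hEr : (1000 : ℝ) ≤ E := by exact_mod_cast hE1
  have hEz : E ≤ z := by
    have h1 : (E : ℝ) ≤ z := by
      have := Real.add_one_le_exp (E : ℝ)
      linarith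
    exact_mod_cast h1
  have hz2 : 2 ≤ z := by omega
  obtain ⟨hm, hqm2, -, hK6, -, hVz⟩ := hvp E (by omega)
  have hVV := (hVz z hz2).1
  have hq1 : 1 ≤ qE E := Nat.one_le_two_pow
  have hqm : qE E * mE E ≤ E / 16 := by
    refine le_trans ?_ hqm2
    rw [pow_two]
    exact Nat.mul_le_mul_right _ (Nat.le_mul_of_pos_left _ hq1)
  obtain ⟨m, hmd⟩ : ∃ m, m = mE E := ⟨_, rfl⟩
  obtain ⟨q, hqd⟩ : ∃ q, q = qE E := ⟨_, rfl⟩
  have hTEd : TE E z P = TB m q (E / 16) z P := by rw [hmd, hqd]; rfl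
  rw [← hmd] at hm hqm hK6 hVV
  rw [← hqd] at hqm hVV
  have hBd : ∀ r ∈ TB m q (E / 16) z P,
      |a r| ≤ t * ∏ i : P, (if r i = 0 then 1 else t * ab m q z (r i)) := by
    intro r hr
    have h1 := ha r (by rw [hTEd]; exact hr)
    rw [← hmd, ← hqd] at h1
    exact h1
  have hK : (E / 16 / m + 1) ^ 3 ≤ E := by
    refine le_trans ?_ hK6
    generalize E / 16 / m = k
    calc (k + 1) ^ 3 ≤ (2 * (k + 2)) ^ 3 := Nat.pow_le_pow_left (by omega) 3
      _ ≤ (2 * (k + 2)) ^ 6 := Nat.pow_le_pow_right (by omega) (by norm_num)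
  set M := E / 16 with hM
  set K := M / m with hKdef
  set R : Finset P := univ.filter (fun i => Rg y z (n + (i : ℕ))) with hRdef
  have hRcard : R.card ≤ E ^ 3 := by
    refine le_trans (le_of_eq ?_) hR
    have : (P.filter (fun h => Rg y z (n + h))) = R.map (Function.Embedding.subtype _) := by
      ext i
      simp only [hRdef, Finset.mem_map, Finset.mem_filter, Finset.mem_univ, true_and,
        Function.Embedding.coe_subtype, Subtype.exists, exists_and_left, exists_prop,
        exists_eq_right_right]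
      exact and_comm
    rw [this, Finset.card_map]
  -- one point
  have hS : ∀ i : P, ∑ s ∈ LA z m (q * m), ab m q z s * |vv y z s (n + (i : ℕ))| ≤ C * 2 ^ E := by
    intro i
    have hi := Finset.mem_Icc.1 (hP i.2)
    refine sum_label (fun d hd => ?_) (by linarith) (by omega) (card_large (by omega) ?_)
    · exact (hC m q (q * m) z hm hz2 (by omega) hVV d hd).1
    · have h1 : n + (i : ℕ) < (z + 1) ^ E + z := by omega
      have h2 : (z + 1) ^ E + z ≤ (z + 1) ^ (E + 1) := by
        rw [pow_succ]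
        have h3 : 1 ≤ (z + 1) ^ E := Nat.one_le_pow _ _ (by omega)
        nlinarith
      omega
  have ht0 : 0 < t := by linarith
  have hC0 : 0 < C := by linarith
  -- the sum
  have hW : |GW E z y a n| ≤ t * (1 + R.card * ((t * C) * 2 ^ E)) ^ K := by
    unfold GW
    rw [hTEd]
    refine (Finset.abs_sum_le_sum_abs _ _).trans ?_
    have h1 : ∀ r ∈ TB m q M z P,
        |a r * ∏ i : P, vv y z (r i) (n + (i : ℕ))| ≤
        t * ∏ i : P, (fun (i : P) (s : ℕ) => if s = 0 then (1 : ℝ) else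
          t * ab m q z s * |vv y z s (n + (i : ℕ))|) i (r i) := by
      intro r hr
      rw [abs_mul, Finset.abs_prod]
      refine (mul_le_mul_of_nonneg_right (hBd r hr)
        (Finset.prod_nonneg fun i _ => abs_nonneg _)).trans (le_of_eq ?_)
      rw [mul_assoc, ← Finset.prod_mul_distrib]
      congr 1
      refine Finset.prod_congr rfl fun i _ => ?_
      simp only
      split_ifs with h0
      · rw [h0, one_mul]
        unfold vv
        rw [if_pos rfl, abs_one]
      · rfl
    refine (Finset.sum_le_sum h1).trans ?_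
    rw [← Finset.mul_sum]
    refine mul_le_mul_of_nonneg_left ?_ ht0.le
    have hne : ∀ s ∈ LA z m (q * m), s ≠ 0 := by
      intro s hs
      have := (mem_SS.1 (mem_LA.1 hs).1).1.1
      omega
    refine sum_labels (L := LA z m (q * m)) (TB m q M z P) K ((t * C) * 2 ^ E) R
      (fun (i : P) (s : ℕ) => if s = 0 then (1 : ℝ) else
        t * ab m q z s * |vv y z s (n + (i : ℕ))|)
      (by positivity) (fun r hr => (mem_TB hr).1) (fun r hr => card_TB hm hz2 hr)
      (fun i => if_pos rfl) (fun i s => ?_) (fun i _ => ?_) (fun i hi s hs => ?_)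
    · split_ifs
      · exact zero_le_one
      · exact mul_nonneg (mul_nonneg ht0.le (ab_nonneg _ _ _ _)) (abs_nonneg _)
    · have h2 := mul_le_mul_of_nonneg_left (hS i) ht0.le
      refine le_trans (le_of_eq ?_) (h2.trans (le_of_eq (by ring)))
      rw [Finset.mul_sum]
      refine Finset.sum_congr rfl fun s hs => ?_
      rw [if_neg (hne s hs), mul_assoc]
    · have h0 := hne s hs
      have h2 : ¬ Rg y z (n + (i : ℕ)) := by
        intro h3
        exact hi (Finset.mem_filter.2 ⟨Finset.mem_univ _, h3⟩)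
      rw [if_neg h0]
      unfold vv
      rw [if_neg h0, if_neg h2, abs_zero, mul_zero]
  have hend := num_end (C := t * C) hE1 hRcard (by positivity) hE2 hK
  have ht2 : t ^ 2 ≤ Real.exp ((E : ℝ) ^ 2 / 2) := by
    have h1 : t ≤ Real.exp E := (Real.log_le_iff_le_exp ht0).1 hE3
    calc t ^ 2 ≤ Real.exp E ^ 2 := pow_le_pow_left₀ ht0.le h1 2
      _ = Real.exp (2 * E) := by
          rw [← Real.exp_nat_mul]
          norm_num
      _ ≤ Real.exp ((E : ℝ) ^ 2 / 2) := by
          refine Real.exp_le_exp.2 ?_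
          nlinarith
  calc GW E z y a n ^ 2 = |GW E z y a n| ^ 2 := (sq_abs _).symm
    _ ≤ (t * (1 + (R.card : ℝ) * ((t * C) * 2 ^ E)) ^ K) ^ 2 :=
        pow_le_pow_left₀ (abs_nonneg _) hW 2
    _ = t ^ 2 * ((1 + (R.card : ℝ) * ((t * C) * 2 ^ E)) ^ K) ^ 2 := by ring
    _ ≤ Real.exp ((E : ℝ) ^ 2 / 2) * Real.exp ((E : ℝ) ^ 2 / 2) :=
        mul_le_mul ht2 hend (by positivity) (Real.exp_pos _).le
    _ = Real.exp ((E : ℝ) ^ 2) := by
        rw [← Real.exp_add]
        congr 1
        ring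

end Pool.Agent.Helper86.PX
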